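import Pool.Agent.Work.MP_62b004_al.Final

/-!
# MP_62b004_al, Q1 (full answer, affirmative)

For every commutative noetherian ring `R` (of finite or infinite Krull dimension) and every `n`, every `R`-module `M` with
restricted flat dimension at most `n` is a direct limit of finitely generated modules of restricted flat dimension at most
`n`.  The definitions (`Tr`, `FinFlatDim`, `Rfd`, `IsDirectLimitOf`, `GovorovLazard`) are in
`Pool/Agent/Work/MP_62b004_al/Stmt.lean`.
-/

universe u

open Pool.Agent.Work.MP_62b004_al in
theorem Pool.Agent.Results.MP_62b004_al.GovorovLazardAll.result {R : Type u} [CommRing R] [IsNoetherianRing R]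
    (n : ℕ) :
    GovorovLazard (fun M : ModuleCat.{u} R => Rfd M ≤ ((n : ℕ∞) : WithBot ℕ∞)) :=
  main n
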